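import Mathlib

set_option autoImplicit false
open Filter Topology

namespace Pool.Agent.H767Z.GrowthSq

lemma norm_diff (x : ℝ) (hx : 1 ≤ x) (s : ℂ) (hs : 0 < s.re) :
    ‖(x : ℂ) ^ (-s) - ((x + 1 : ℝ) : ℂ) ^ (-s)‖ ≤ ‖s‖ * x ^ (-s.re - 1) := by
  have hs0 : -s ≠ 0 := by
    intro h
    have : s = 0 := neg_eq_zero.1 h
    simp [this] at hs
  have h1 : ∀ t ∈ Set.Icc x (x + 1), HasDerivWithinAt (fun y : ℝ => (y : ℂ) ^ (-s))
      (-s * (t : ℂ) ^ (-s - 1)) (Set.Icc x (x + 1)) t := fun t ht =>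
    (hasDerivAt_ofReal_cpow_const (by linarith [ht.1]) hs0).hasDerivWithinAt
  have h2 : ∀ t ∈ Set.Icc x (x + 1), ‖-s * (t : ℂ) ^ (-s - 1)‖ ≤ ‖s‖ * x ^ (-s.re - 1) := by
    intro t ht
    rw [norm_mul, norm_neg, Complex.norm_cpow_eq_rpow_re_of_pos (by linarith [ht.1])]
    refine mul_le_mul_of_nonneg_left ?_ (norm_nonneg _)
    simp only [Complex.sub_re, Complex.neg_re, Complex.one_re]
    exact Real.rpow_le_rpow_of_nonpos (by linarith) ht.1 (by linarith)
  have h3 := (convex_Icc x (x + 1)).norm_image_sub_le_of_norm_hasDerivWithin_le h1 h2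
    (Set.right_mem_Icc.2 (by linarith)) (Set.left_mem_Icc.2 (by linarith))
  simpa using h3

/-- partial sums -/
noncomputable def A (a : ℕ → ℝ) (n : ℕ) : ℝ := ∑ m ∈ Finset.Icc 1 n, a m

/-- terms of the Abel-summed series -/
noncomputable def T (a : ℕ → ℝ) (k : ℕ) (s : ℂ) : ℂ :=
  (A a (k + 1) : ℂ) * ((((k + 1 : ℕ) : ℝ) : ℂ) ^ (-s) - ((((k + 1 : ℕ) : ℝ) + 1 : ℝ) : ℂ) ^ (-s))

lemma norm_T (a : ℕ → ℝ) (k : ℕ) (s : ℂ) (b : ℝ) (hb : 0 < b) (hs : b ≤ s.re) :
    ‖T a k s‖ ≤ |A a (k + 1)| * ((k + 1 : ℕ) : ℝ) ^ (-b - 1) * ‖s‖ := by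
  have h1 : (1 : ℝ) ≤ ((k + 1 : ℕ) : ℝ) := by exact_mod_cast Nat.succ_le_succ (Nat.zero_le k)
  rw [T, norm_mul, Complex.norm_real, Real.norm_eq_abs, mul_assoc]
  refine mul_le_mul_of_nonneg_left ((norm_diff _ h1 s (by linarith)).trans ?_) (abs_nonneg _)
  rw [mul_comm]
  exact mul_le_mul_of_nonneg_right (Real.rpow_le_rpow_of_exponent_le h1 (by linarith))
    (norm_nonneg _)

lemma diff_T (a : ℕ → ℝ) (k : ℕ) : Differentiable ℂ (T a k) := by
  unfold T
  refine Differentiable.const_mul (Differentiable.sub ?_ ?_) _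
  · refine differentiable_id.neg.const_cpow (Or.inl ?_)
    exact_mod_cast Nat.succ_ne_zero k
  · refine differentiable_id.neg.const_cpow (Or.inl ?_)
    have : (0 : ℝ) < ((k + 1 : ℕ) : ℝ) + 1 := by positivity
    exact_mod_cast this.ne'

lemma abel (a : ℕ → ℝ) (s : ℂ) (N : ℕ) :
    ∑ k ∈ Finset.range (N + 1), LSeries.term (fun n => (a n : ℂ)) s k =
      ∑ k ∈ Finset.range N, T a k s + (A a N : ℂ) * (((N + 1 : ℕ) : ℝ) : ℂ) ^ (-s) := by
  induction N with
  | zero => simp [A]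
  | succ N ih =>
    rw [Finset.sum_range_succ, ih, Finset.sum_range_succ, T,
      LSeries.term_of_ne_zero (Nat.succ_ne_zero N)]
    have h1 : A a (N + 1) = A a N + a (N + 1) := by
      unfold A
      rw [Finset.sum_Icc_succ_top (by omega)]
    rw [h1, div_eq_mul_inv, ← Complex.cpow_neg]
    push_cast
    ring

lemma abs_A (a : ℕ → ℝ) (C : ℝ) (ha : ∀ n : ℕ, 1 ≤ n → |a n| ≤ C * n) (N : ℕ) :
    |A a N| ≤ C * ((N + 1 : ℕ) : ℝ) ^ 2 := by
  have hC : 0 ≤ C := by
    have := (abs_nonneg _).trans (ha 1 le_rfl)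
    simpa using this
  induction N with
  | zero => simp [A, hC]
  | succ N ih =>
    have h1 : A a (N + 1) = A a N + a (N + 1) := by
      unfold A
      rw [Finset.sum_Icc_succ_top (by omega)]
    have h2 := ha (N + 1) (by omega)
    rw [h1]
    refine (abs_add_le _ _).trans ?_
    push_cast at ih h2 ⊢
    have h3 : (0 : ℝ) ≤ N := Nat.cast_nonneg N
    nlinarith [mul_nonneg hC h3]

end Pool.Agent.H767Z.GrowthSq

namespace Pool.Agent.H369Z.Err

open Pool.Agent.H767Z.GrowthSq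

theorem growth_of_sq (a : ℕ → ℝ) (C σ β : ℝ) (hσ : 0 ≤ σ) (hβ : σ < β)
    (ha : ∀ n : ℕ, 1 ≤ n → |a n| ≤ C * n) (F : ℂ → ℂ) (hF : Differentiable ℂ F)
    (hFa : ∀ s : ℂ, 3 < s.re → F s = LSeries (fun n => (a n : ℂ)) s)
    (hs : Summable fun n : ℕ => (∑ m ∈ Finset.Icc 1 n, a m) ^ 2 * (n : ℝ) ^ (-(2 * σ + 1))) :
    ∃ K : ℝ, ∀ s : ℂ, β ≤ s.re → ‖F s‖ ≤ K * ‖s‖ := by
  set b : ℝ := (σ + β) / 2 with hbdef
  have hb : 0 < b := by rw [hbdef]; linarith
  have hσb : σ < b := by rw [hbdef]; linarith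
  have hbβ : b < β := by rw [hbdef]; linarith
  let u : ℕ → ℝ := fun k => |A a (k + 1)| * ((k + 1 : ℕ) : ℝ) ^ (-b - 1)
  have hu : Summable u := by
    have h1 : Summable fun k : ℕ => A a (k + 1) ^ 2 * ((k + 1 : ℕ) : ℝ) ^ (-(2 * σ + 1)) :=
      (summable_nat_add_iff 1).2 hs
    have h2 : Summable fun k : ℕ => ((k + 1 : ℕ) : ℝ) ^ (-(2 * b - 2 * σ + 1)) :=
      (summable_nat_add_iff (f := fun n : ℕ => (n : ℝ) ^ (-(2 * b - 2 * σ + 1))) 1).2
        (Real.summable_nat_rpow.2 (by linarith))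
    refine Summable.of_nonneg_of_le (fun k => by positivity) (fun k => ?_) (h1.add h2)
    have hp : (0 : ℝ) < ((k + 1 : ℕ) : ℝ) := by positivity
    set x : ℝ := ((k + 1 : ℕ) : ℝ)
    have e1 : x ^ (-b - 1) = x ^ (-(2 * σ + 1) / 2) * x ^ (-(2 * b - 2 * σ + 1) / 2) := by
      rw [← Real.rpow_add hp]
      congr 1
      ring
    have e2 : x ^ (-(2 * σ + 1)) = (x ^ (-(2 * σ + 1) / 2)) ^ 2 := by
      rw [← Real.rpow_natCast, ← Real.rpow_mul hp.le]
      congr 1
      push_cast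
      ring
    have e3 : x ^ (-(2 * b - 2 * σ + 1)) = (x ^ (-(2 * b - 2 * σ + 1) / 2)) ^ 2 := by
      rw [← Real.rpow_natCast, ← Real.rpow_mul hp.le]
      congr 1
      push_cast
      ring
    show |A a (k + 1)| * x ^ (-b - 1) ≤ _
    rw [e1, e2, e3, ← sq_abs (A a (k + 1))]
    nlinarith [sq_nonneg (|A a (k + 1)| * x ^ (-(2 * σ + 1) / 2) -
      x ^ (-(2 * b - 2 * σ + 1) / 2)), mul_nonneg (mul_nonneg (abs_nonneg (A a (k + 1)))
      (Real.rpow_nonneg hp.le (-(2 * σ + 1) / 2)))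
      (Real.rpow_nonneg hp.le (-(2 * b - 2 * σ + 1) / 2))]
  let H : ℂ → ℂ := fun s => ∑' k, T a k s
  let U : Set ℂ := {s | b < s.re}
  have hUo : IsOpen U := isOpen_lt continuous_const Complex.continuous_re
  have hsum : ∀ s : ℂ, b ≤ s.re → Summable fun k => T a k s := fun s hs =>
    Summable.of_norm_bounded (hu.mul_right ‖s‖) fun k => norm_T a k s b hb hs
  have hH : DifferentiableOn ℂ H U := by
    intro s hsU
    have ho : IsOpen (U ∩ Metric.ball 0 (‖s‖ + 1)) := hUo.inter Metric.isOpen_ball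
    have h1 : DifferentiableOn ℂ H (U ∩ Metric.ball 0 (‖s‖ + 1)) := by
      refine Complex.differentiableOn_tsum_of_summable_norm (hu.mul_right (‖s‖ + 1))
        (fun k => (diff_T a k).differentiableOn) ho fun k w hw => ?_
      refine (norm_T a k w b hb (le_of_lt hw.1)).trans ?_
      refine mul_le_mul_of_nonneg_left ?_ (by positivity)
      exact (mem_ball_zero_iff.1 hw.2).le
    exact (h1.differentiableAt (ho.mem_nhds ⟨hsU, by simp⟩)).differentiableWithinAt
  have hEq : ∀ s : ℂ, b < s.re → 3 < s.re → F s = H s := by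
    intro s hs1 hs3
    have hL : LSeriesSummable (fun n => (a n : ℂ)) s := by
      refine LSeriesSummable_of_le_const_mul_rpow (x := 2) (by linarith) ⟨C, fun n hn => ?_⟩
      have := ha n (Nat.one_le_iff_ne_zero.2 hn)
      rw [Complex.norm_real, Real.norm_eq_abs]
      norm_num
      exact this
    have t1 : Tendsto (fun N => ∑ k ∈ Finset.range (N + 1), LSeries.term (fun n => (a n : ℂ)) s k)
        atTop (𝓝 (LSeries (fun n => (a n : ℂ)) s)) :=
      hL.hasSum.tendsto_sum_nat.comp (tendsto_add_atTop_nat 1)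
    have t2 : Tendsto (fun N => ∑ k ∈ Finset.range N, T a k s) atTop (𝓝 (H s)) :=
      (hsum s hs1.le).hasSum.tendsto_sum_nat
    have t3 : Tendsto (fun N : ℕ => (A a N : ℂ) * (((N + 1 : ℕ) : ℝ) : ℂ) ^ (-s)) atTop (𝓝 0) := by
      have h4 : Tendsto (fun N : ℕ => C * ((N + 1 : ℕ) : ℝ) ^ (-(s.re - 2))) atTop (𝓝 (C * 0)) :=
        (((tendsto_rpow_neg_atTop (by linarith : 0 < s.re - 2)).comp
          tendsto_natCast_atTop_atTop).comp (tendsto_add_atTop_nat 1)).const_mul C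
      rw [mul_zero] at h4
      refine squeeze_zero_norm (fun N => ?_) h4
      have hp : (0 : ℝ) < ((N + 1 : ℕ) : ℝ) := by positivity
      rw [norm_mul, Complex.norm_real, Real.norm_eq_abs, Complex.norm_cpow_eq_rpow_re_of_pos hp]
      refine (mul_le_mul_of_nonneg_right (abs_A a C ha N) (Real.rpow_nonneg hp.le _)).trans
        (le_of_eq ?_)
      rw [mul_assoc, ← Real.rpow_natCast, ← Real.rpow_add hp]
      congr 2
      simp
      ring
    have t4 := t2.add t3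
    rw [add_zero] at t4
    rw [hFa s hs3]
    refine tendsto_nhds_unique t1 (t4.congr fun N => (abel a s N).symm)
  have hU : Set.EqOn F H U := by
    have hc : Convex ℝ U := convex_halfSpace_re_gt b
    refine (hF.differentiableOn.analyticOnNhd hUo).eqOn_of_preconnected_of_eventuallyEq
      (hH.analyticOnNhd hUo) hc.isPreconnected (z₀ := ((b + 4 : ℝ) : ℂ)) ?_ ?_
    · show b < ((b + 4 : ℝ) : ℂ).re
      simp
    · have h1 : {s : ℂ | b + 3 < s.re} ∈ 𝓝 ((b + 4 : ℝ) : ℂ) :=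
        (isOpen_lt continuous_const Complex.continuous_re).mem_nhds (by
          show b + 3 < ((b + 4 : ℝ) : ℂ).re
          simp only [Complex.ofReal_re]
          linarith)
      filter_upwards [h1] with s hs
      exact hEq s (by linarith) (by linarith)
  refine ⟨∑' k, u k, fun s hs => ?_⟩
  rw [hU (show b < s.re by linarith), ← tsum_mul_right]
  exact tsum_of_norm_bounded (hu.mul_right ‖s‖).hasSum fun k => norm_T a k s b hb (by linarith)

end Pool.Agent.H369Z.Err
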