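import Mathlib

set_option autoImplicit false
open Set Filter Topology

namespace Pool.Agent.H767Z.Dim

/-- relative shrinking form of `dim F ≤ n` -/
def P (n : ℕ) {X : Type} [TopologicalSpace X] (F : Set X) : Prop :=
  ∀ (ι : Type) [Finite ι] (U : ι → Set X), (∀ i, IsOpen (U i)) → F ⊆ ⋃ i, U i →
    ∃ V : ι → Set X, (∀ i, IsOpen (V i)) ∧ F ⊆ ⋃ i, V i ∧ (∀ i, V i ⊆ U i) ∧
      ∀ x ∈ F, Nat.card {i // x ∈ V i} ≤ n + 1

/-- covering dimension at most `n` -/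
def D (n : ℕ) (X : Type) [TopologicalSpace X] : Prop :=
  ∀ (ι : Type) [Finite ι] (U : ι → Set X),
    (∀ i, IsOpen (U i)) → (⋃ i, U i) = Set.univ →
    ∃ (κ : Type) (_ : Finite κ) (V : κ → Set X),
      (∀ k, IsOpen (V k)) ∧ (⋃ k, V k) = Set.univ ∧ (∀ k, ∃ i, V k ⊆ U i) ∧
      ∀ x, Nat.card {k // x ∈ V k} ≤ n + 1

lemma card_le {ι κ : Type} [Finite κ] (j : κ → ι) (p : ι → Prop) (q : κ → Prop)
    (h : ∀ i, p i → ∃ k, q k ∧ j k = i) : Nat.card {i // p i} ≤ Nat.card {k // q k} := by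
  classical
  choose f hf1 hf2 using h
  refine Nat.card_le_card_of_injective
    (fun i : {i // p i} => (⟨f i.1 i.2, hf1 i.1 i.2⟩ : {k // q k})) ?_
  intro a b hab
  have h1 : f a.1 a.2 = f b.1 b.2 := congrArg Subtype.val hab
  apply Subtype.ext
  rw [← hf2 a.1 a.2, ← hf2 b.1 b.2, h1]

variable {n : ℕ} {X : Type} [TopologicalSpace X]

lemma D_iff_P : D n X ↔ P n (univ : Set X) := by
  constructor
  · intro h ι _ U hU hc
    obtain ⟨κ, _, V, hV, hVc, hVU, hVo⟩ := h ι U hU (univ_subset_iff.1 hc)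
    choose j hj using hVU
    refine ⟨fun i => ⋃ k ∈ {k | j k = i}, V k, fun i => isOpen_biUnion fun k _ => hV k, ?_, ?_, ?_⟩
    · intro x _
      have : x ∈ ⋃ k, V k := hVc ▸ mem_univ x
      obtain ⟨k, hk⟩ := mem_iUnion.1 this
      exact mem_iUnion.2 ⟨j k, mem_biUnion (show k ∈ {k' | j k' = j k} from rfl) hk⟩
    · intro i x hx
      obtain ⟨k, hk, hx⟩ := mem_iUnion₂.1 hx
      have hk' : j k = i := hk
      exact hk' ▸ hj k hx
    · intro x _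
      refine le_trans (card_le j _ (fun k => x ∈ V k) ?_) (hVo x)
      intro i hx
      obtain ⟨k, hk, hx⟩ := mem_iUnion₂.1 hx
      exact ⟨k, hx, hk⟩
  · intro h ι _ U hU hc
    obtain ⟨V, hV, hVc, hVU, hVo⟩ := h ι U hU (hc ▸ Subset.rfl)
    exact ⟨ι, inferInstance, V, hV, univ_subset_iff.1 hVc, fun k => ⟨k, hVU k⟩,
      fun x => hVo x (mem_univ x)⟩

lemma P.empty : P n (∅ : Set X) := by
  intro ι _ U hU _
  exact ⟨U, hU, empty_subset _, fun _ => Subset.rfl, fun x hx => absurd hx (notMem_empty x)⟩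

/-- pull back along a continuous map that is injective on a compact set -/
lemma P.pullback {Y : Type} [TopologicalSpace Y] [T2Space Y] {ν : X → Y} (hν : Continuous ν)
    {K : Set X} (hK : IsCompact K) (hinj : InjOn ν K) (h : P n (univ : Set Y)) : P n K := by
  intro ι _ U hU hc
  rcases K.eq_empty_or_nonempty with rfl | ⟨x₀, hx₀⟩
  · exact P.empty ι U hU hc
  obtain ⟨i₀, -⟩ := mem_iUnion.1 (hc hx₀)
  have hcl : ∀ i, IsClosed (ν '' (K \ U i)) := fun i =>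
    ((hK.diff (hU i)).image hν).isClosed
  obtain ⟨V, hV, hVc, hVU, hVo⟩ := h ι (fun i => (ν '' (K \ U i))ᶜ) (fun i => (hcl i).isOpen_compl)
    (by
      intro y _
      by_cases hy : y ∈ ν '' K
      · obtain ⟨x, hx, rfl⟩ := hy
        obtain ⟨i, hi⟩ := mem_iUnion.1 (hc hx)
        refine mem_iUnion.2 ⟨i, ?_⟩
        rintro ⟨x', hx', he⟩
        exact hx'.2 (hinj hx'.1 hx he ▸ hi)
      · exact mem_iUnion.2 ⟨i₀, fun hy' => hy (image_mono sdiff_subset hy')⟩)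
  refine ⟨fun i => ν ⁻¹' V i ∩ U i, fun i => ((hV i).preimage hν).inter (hU i), ?_,
    fun i => inter_subset_right, ?_⟩
  · intro x hx
    obtain ⟨i, hi⟩ := mem_iUnion.1 (hVc (mem_univ (ν x)))
    refine mem_iUnion.2 ⟨i, hi, ?_⟩
    by_contra hxU
    exact hVU i hi ⟨x, ⟨hx, hxU⟩, rfl⟩
  · intro x _
    refine le_trans (card_le id _ (fun i => ν x ∈ V i) ?_) (hVo (ν x) (mem_univ _))
    intro i hi
    exact ⟨i, hi.1, rfl⟩

lemma P.extend {F E : Set X} (h : P n F) (hF : IsClosed F) (ι : Type) [Finite ι]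
    (U : ι → Set X) (hU : ∀ i, IsOpen (U i)) (hc : E ⊆ ⋃ i, U i) (hFE : F ⊆ E) :
    ∃ V : ι → Set X, (∀ i, IsOpen (V i)) ∧ E ⊆ ⋃ i, V i ∧ (∀ i, V i ⊆ U i) ∧
      ∀ x ∈ F, Nat.card {i // x ∈ V i} ≤ n + 1 := by
  obtain ⟨V, hV, hVc, hVU, hVo⟩ := h ι U hU (hFE.trans hc)
  refine ⟨fun i => (U i ∩ Fᶜ) ∪ V i, fun i => ((hU i).inter hF.isOpen_compl).union (hV i), ?_,
    fun i => union_subset inter_subset_left (hVU i), ?_⟩
  · intro x hx
    by_cases hxF : x ∈ F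
    · obtain ⟨i, hi⟩ := mem_iUnion.1 (hVc hxF)
      exact mem_iUnion.2 ⟨i, Or.inr hi⟩
    · obtain ⟨i, hi⟩ := mem_iUnion.1 (hc hx)
      exact mem_iUnion.2 ⟨i, Or.inl ⟨hi, hxF⟩⟩
  · intro x hx
    refine le_trans (card_le id _ (fun i => x ∈ V i) ?_) (hVo x hx)
    rintro i (hi | hi)
    · exact absurd hx hi.2
    · exact ⟨i, hi, rfl⟩

lemma P.union {F E : Set X} (h : P n F) (hF : IsClosed F) (h' : P n E) (hE : IsClosed E) :
    P n (F ∪ E) := by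
  intro ι _ U hU hc
  obtain ⟨V, hV, hVc, hVU, hVo⟩ := h.extend hF ι U hU hc subset_union_left
  obtain ⟨W, hW, hWc, hWV, hWo⟩ := h'.extend hE ι V hV hVc subset_union_right
  refine ⟨W, hW, hWc, fun i => (hWV i).trans (hVU i), ?_⟩
  rintro x (hx | hx)
  · refine le_trans (card_le id _ (fun i => x ∈ V i) ?_) (hVo x hx)
    intro i hi
    exact ⟨i, hWV i hi, rfl⟩
  · exact hWo x hx

/-- the finite sum theorem -/
lemma P.biUnion {α : Type} (s : Finset α) (F : α → Set X) (h : ∀ a, P n (F a))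
    (hF : ∀ a, IsClosed (F a)) : P n (⋃ a ∈ s, F a) := by
  classical
  induction s using Finset.induction_on with
  | empty => simpa using P.empty
  | insert a s _ ih =>
    rw [Finset.set_biUnion_insert]
    exact (h a).union (hF a) ih (isClosed_biUnion_finset fun a _ => hF a)

section Group

variable {G : Type} [TopologicalSpace G] [Group G] [IsTopologicalGroup G]

/-- translates `C γ`, `γ ∈ Γ`, that are uniformly apart -/
def Apart (W C Γ : Set G) : Prop :=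
  ∀ γ ∈ Γ, ∀ γ' ∈ Γ, ∀ u ∈ W, ∀ u' ∈ W, ∀ c ∈ C, ∀ c' ∈ C, u * c * γ = u' * c' * γ' → γ = γ'

/-- the union of the translates -/
def tr (C Γ : Set G) : Set G := {x | ∃ c ∈ C, ∃ γ ∈ Γ, x = c * γ}

lemma isClosed_tr [T2Space G] {W C Γ : Set G} (hW : W ∈ 𝓝 (1 : G)) (hC : IsCompact C)
    (h : Apart W C Γ) : IsClosed (tr C Γ) := by
  rw [← closure_subset_iff_isClosed]
  intro x hx
  have hN : {z : G | x * z⁻¹ ∈ W} ∈ 𝓝 x := by
    have : Continuous fun z : G => x * z⁻¹ := by fun_prop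
    exact this.continuousAt.preimage_mem_nhds (by simpa using hW)
  obtain ⟨z, hz, c, hc, γ, hγ, rfl⟩ := mem_closure_iff_nhds.1 hx _ hN
  have hcl : IsClosed ((fun c => c * γ) '' C) := (hC.image (by fun_prop)).isClosed
  have : x ∈ closure ((fun c => c * γ) '' C) := by
    rw [mem_closure_iff_nhds]
    intro t ht
    obtain ⟨z', ⟨hz't, hz'⟩, c', hc', γ', hγ', rfl⟩ :=
      mem_closure_iff_nhds.1 hx _ (inter_mem ht hN)
    have : γ = γ' := h γ hγ γ' hγ' _ hz _ hz' c hc c' hc' (by group)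
    subst this
    exact ⟨_, hz't, c', hc', rfl⟩
  rw [hcl.closure_eq] at this
  obtain ⟨c', hc', rfl⟩ := this
  exact ⟨c', hc', γ, hγ, rfl⟩

lemma P_tr {W C Γ : Set G} (hW : IsOpen W) (h1 : (1 : G) ∈ W) (h : Apart W C Γ)
    (hP : ∀ γ : G, P n ((fun c => c * γ) '' C)) : P n (tr C Γ) := by
  intro ι _ U hU hc
  have key : ∀ γ : Γ, ∃ V : ι → Set G, (∀ i, IsOpen (V i)) ∧
      (fun c => c * γ.1) '' C ⊆ ⋃ i, V i ∧ (∀ i, V i ⊆ U i) ∧
      ∀ x ∈ (fun c => c * γ.1) '' C, Nat.card {i // x ∈ V i} ≤ n + 1 := by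
    intro γ
    refine hP γ ι U hU (Subset.trans ?_ hc)
    rintro _ ⟨c, hc, rfl⟩
    exact ⟨c, hc, γ, γ.2, rfl⟩
  choose V hV hVc hVU hVo using key
  let O : Γ → Set G := fun γ => ⋃ c ∈ C, (fun x => x * (c * γ.1)⁻¹) ⁻¹' W
  have hO : ∀ γ, IsOpen (O γ) := fun γ =>
    isOpen_biUnion fun c _ => hW.preimage (by fun_prop)
  refine ⟨fun i => ⋃ γ : Γ, V γ i ∩ O γ, fun i => isOpen_iUnion fun γ => (hV γ i).inter (hO γ),
    ?_, fun i => iUnion_subset fun γ => inter_subset_left.trans (hVU γ i), ?_⟩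
  · rintro _ ⟨c, hc, γ, hγ, rfl⟩
    obtain ⟨i, hi⟩ := mem_iUnion.1 (hVc ⟨γ, hγ⟩ ⟨c, hc, rfl⟩)
    refine mem_iUnion.2 ⟨i, mem_iUnion.2 ⟨⟨γ, hγ⟩, hi, mem_biUnion hc ?_⟩⟩
    simpa using h1
  · rintro _ ⟨c, hc, γ, hγ, rfl⟩
    refine le_trans (card_le id _ (fun i => c * γ ∈ V ⟨γ, hγ⟩ i) ?_)
      (hVo ⟨γ, hγ⟩ _ ⟨c, hc, rfl⟩)
    intro i hi
    obtain ⟨⟨γ', hγ'⟩, hi, ho⟩ := mem_iUnion.1 hi
    obtain ⟨c', hc', ho⟩ := mem_iUnion₂.1 ho
    have : γ = γ' := h γ hγ γ' hγ' 1 h1 _ ho c hc c' hc' (by group)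
    subst this
    exact ⟨i, hi, rfl⟩

/-- a locally compact group is a finite union of uniformly discrete families of right translates
of compact sets -/
lemma exists_decomp [LocallyCompactSpace G] :
    ∃ (Γ : Set G) (s : Finset G) (W C : G → Set G), (∀ t, IsOpen (W t) ∧ (1 : G) ∈ W t ∧
      IsCompact (C t) ∧ Apart (W t) (C t) Γ) ∧ ⋃ t ∈ s, tr (C t) Γ = univ := by
  obtain ⟨K, hK, hK1⟩ := exists_compact_mem_nhds (1 : G)
  let L : Set G := (fun p : (G × G) × (G × G) => p.1.1⁻¹ * p.1.2⁻¹ * p.2.1 * p.2.2) ''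
    ((K ×ˢ K) ×ˢ (K ×ˢ K))
  have hL : IsCompact L := ((hK.prod hK).prod (hK.prod hK)).image (by fun_prop)
  have h1K : (1 : G) ∈ K := mem_of_mem_nhds hK1
  have h1L : (1 : G) ∈ L := ⟨((1, 1), (1, 1)), ⟨⟨h1K, h1K⟩, ⟨h1K, h1K⟩⟩, by simp⟩
  have hLinv : ∀ x ∈ L, x⁻¹ ∈ L := by
    rintro _ ⟨⟨⟨a, b⟩, ⟨c, d⟩⟩, ⟨⟨ha, hb⟩, ⟨hc, hd⟩⟩, rfl⟩
    exact ⟨((d, c), (b, a)), ⟨⟨hd, hc⟩, ⟨hb, ha⟩⟩, by group⟩
  obtain ⟨Γ, hΓ⟩ : ∃ Γ : Set G, Maximal (fun S : Set G =>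
      ∀ a ∈ S, ∀ b ∈ S, b * a⁻¹ ∈ L → a = b) Γ := by
    refine zorn_subset {S : Set G | ∀ a ∈ S, ∀ b ∈ S, b * a⁻¹ ∈ L → a = b} ?_
    intro c hc hch
    refine ⟨⋃₀ c, ?_, fun s hs => subset_sUnion_of_mem hs⟩
    rintro a ⟨s, hs, ha⟩ b ⟨t, ht, hb⟩ hab
    rcases hch.total hs ht with hst | hts
    · exact hc ht a (hst ha) b hb hab
    · exact hc hs a ha b (hts hb) hab
  have hcov : ∀ x : G, ∃ γ ∈ Γ, x * γ⁻¹ ∈ L := by
    intro x
    by_contra hx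
    push Not at hx
    have hxΓ : x ∈ Γ := by
      refine hΓ.2 (y := insert x Γ) ?_ (subset_insert x Γ) (mem_insert x Γ)
      rintro a (rfl | ha) b (rfl | hb) hab
      · rfl
      · exact absurd (by simpa using hLinv _ hab) (hx b hb)
      · exact absurd hab (hx a ha)
      · exact hΓ.1 a ha b hb hab
    exact hx x hxΓ (by simpa using h1L)
  obtain ⟨s, hs⟩ := hL.elim_finite_subcover (fun t : G => (fun x => t⁻¹ * x) ⁻¹' interior K)
    (fun t => isOpen_interior.preimage (by fun_prop))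
    (fun x _ => mem_iUnion.2 ⟨x, by simpa using mem_interior_iff_mem_nhds.2 hK1⟩)
  refine ⟨Γ, s, fun t => (fun x => t⁻¹ * x * t) ⁻¹' interior K, fun t => (fun x => t * x) '' K,
    fun t => ⟨isOpen_interior.preimage (by fun_prop),
      by simpa using mem_interior_iff_mem_nhds.2 hK1, hK.image (by fun_prop), ?_⟩, ?_⟩
  · rintro γ hγ γ' hγ' u hu u' hu' _ ⟨c, hc, rfl⟩ _ ⟨c', hc', rfl⟩ he
    refine hΓ.1 γ hγ γ' hγ' ⟨((c', t⁻¹ * u' * t), (t⁻¹ * u * t, c)),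
      ⟨⟨hc', interior_subset hu'⟩, ⟨interior_subset hu, hc⟩⟩, ?_⟩
    have : γ' = (u' * (t * c'))⁻¹ * (u * (t * c) * γ) := by rw [he]; group
    rw [this]
    group
  · refine eq_univ_of_forall fun x => ?_
    obtain ⟨γ, hγ, hx⟩ := hcov x
    obtain ⟨t, ht, hx⟩ := mem_iUnion₂.1 (hs hx)
    exact mem_biUnion ht ⟨x * γ⁻¹, ⟨t⁻¹ * (x * γ⁻¹), interior_subset hx, by group⟩, γ, hγ, by group⟩

end Group

end Pool.Agent.H767Z.Dim
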