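import Mathlib
import Pool.Agent.H767Z.DimA

set_option autoImplicit false
set_option linter.unusedSectionVars false
open Set Filter Topology

namespace Pool.Agent.H767Z.Dim

variable {n : ℕ} {G : Type} [TopologicalSpace G] [Group G] [IsTopologicalGroup G]
  {Y : Type} [TopologicalSpace Y] [T2Space Y] [CompactSpace Y]

/-- the properties of the greatest ambit that are used -/
structure Amb (ν : G → Y) : Prop where
  cont : Continuous ν
  dense : DenseRange ν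
  unif : ∀ y : Y, Tendsto (fun p : G × G => ν (p.1 * p.2)) (𝓝 1 ×ˢ comap ν (𝓝 y)) (𝓝 y)
  sep : ∀ (A : Set G), ∀ W ∈ 𝓝 (1 : G), ∃ h : Y → ℂ, Continuous h ∧ (∀ a ∈ A, h (ν a) = 1) ∧
    ∀ x, h (ν x) ≠ 0 → ∃ u ∈ W, ∃ a ∈ A, x = u * a

lemma Amb.inj [T2Space G] {ν : G → Y} (h : Amb ν) : Function.Injective ν := by
  intro a b hab
  by_contra hne
  have hW : ({b * a⁻¹}ᶜ : Set G) ∈ 𝓝 (1 : G) := by
    refine isOpen_compl_singleton.mem_nhds ?_
    intro h1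
    apply hne
    have : b * a⁻¹ = 1 := (mem_singleton_iff.1 h1).symm
    exact (mul_inv_eq_one.1 this).symm
  obtain ⟨f, -, hf1, hf0⟩ := h.sep {a} _ hW
  have : f (ν b) ≠ 0 := by rw [← hab, hf1 a rfl]; exact one_ne_zero
  obtain ⟨u, hu, a', ha', rfl⟩ := hf0 b this
  rw [mem_singleton_iff.1 ha'] at hu
  exact hu (by simp)

lemma Amb.lebesgue {ν : G → Y} (h : Amb ν) {F : Set Y} (hF : IsClosed F) {ι : Type}
    (U : ι → Set Y) (hU : ∀ i, IsOpen (U i)) (hc : F ⊆ ⋃ i, U i) :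
    ∃ W ∈ 𝓝 (1 : G), ∃ B : ι → Set Y, (∀ i, IsClosed (B i)) ∧ (∀ i, B i ⊆ U i) ∧
      ∀ x, ν x ∈ F → ∃ i, ∀ u ∈ W, ν (u * x) ∈ B i := by
  classical
  have key : ∀ y : F, ∃ (i : ι) (B N : Set Y) (W : Set G), IsClosed B ∧ B ⊆ U i ∧ IsOpen N ∧
      y.1 ∈ N ∧ W ∈ 𝓝 (1 : G) ∧ ∀ x, ν x ∈ N → ∀ u ∈ W, ν (u * x) ∈ B := by
    intro y
    obtain ⟨i, hi⟩ := mem_iUnion.1 (hc y.2)
    obtain ⟨B, hB, hBc, hBU⟩ := exists_mem_nhds_isClosed_subset ((hU i).mem_nhds hi)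
    obtain ⟨W, hW, T, hT, hWT⟩ := mem_prod_iff.1 (h.unif y.1 hB)
    obtain ⟨N, hN, hNT⟩ := mem_comap.1 hT
    refine ⟨i, B, interior N, W, hBc, hBU, isOpen_interior, mem_interior_iff_mem_nhds.2 hN, hW, ?_⟩
    intro x hx u hu
    exact hWT (mk_mem_prod hu (hNT (show ν x ∈ N from interior_subset hx)))
  choose i B N W hB hBU hN hyN hW hk using key
  obtain ⟨s, hs⟩ := hF.isCompact.elim_finite_subcover N hN
    (fun y hy => mem_iUnion.2 ⟨⟨y, hy⟩, hyN _⟩)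
  refine ⟨⋂ y ∈ s, W y, (biInter_finset_mem s).2 fun y _ => hW y,
    fun j => ⋃ y ∈ s.filter (fun y => i y = j), B y,
    fun j => isClosed_biUnion_finset fun y _ => hB y, ?_, ?_⟩
  · intro j z hz
    obtain ⟨y, hy, hz⟩ := mem_iUnion₂.1 hz
    exact (Finset.mem_filter.1 hy).2 ▸ hBU y hz
  · intro x hx
    obtain ⟨y, hy, hx⟩ := mem_iUnion₂.1 (hs hx)
    refine ⟨i y, fun u hu => mem_biUnion (Finset.mem_filter.2 ⟨hy, rfl⟩) ?_⟩
    exact hk y x hx u (mem_iInter₂.1 hu y hy)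

lemma Amb.P_closure [T2Space G] [LocallyCompactSpace G] {ν : G → Y} (h : Amb ν)
    {W₀ C Γ : Set G} (hW₀ : W₀ ∈ 𝓝 (1 : G)) (hC : IsCompact C) (hA : Apart W₀ C Γ)
    (hP : P n C) : P n (closure (ν '' tr C Γ)) := by
  classical
  intro ι _ U hU hc
  obtain ⟨W, hW, B, hB, hBU, hk⟩ := h.lebesgue isClosed_closure U hU hc
  -- a finite cover of `C` by small sets, refined to low order
  obtain ⟨s, hs⟩ := hC.elim_finite_subcover (fun c : C => (fun x => x * c.1⁻¹) ⁻¹' interior W)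
    (fun c => isOpen_interior.preimage (by fun_prop))
    (fun x hx => mem_iUnion.2 ⟨⟨x, hx⟩, by simpa using mem_interior_iff_mem_nhds.2 hW⟩)
  obtain ⟨V, hV, hVc, hVW, hVo⟩ := hP s (fun c => (fun x => x * c.1.1⁻¹) ⁻¹' interior W)
    (fun c => isOpen_interior.preimage (by fun_prop))
    (fun x hx => by
      obtain ⟨c, hc, hx⟩ := mem_iUnion₂.1 (hs hx)
      exact mem_iUnion.2 ⟨⟨c, hc⟩, hx⟩)
  obtain ⟨K, hK, hKV, hKc⟩ := hC.finite_compact_cover Finset.univ V (fun i _ => hV i)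
    (by simpa using hVc)
  have hKC : ∀ j, K j ⊆ C := fun j => hKc ▸ subset_biUnion_of_mem (u := K) (Finset.mem_coe.2 (Finset.mem_univ j))
  have key : ∀ j, ∃ W₁ ∈ 𝓝 (1 : G), ∀ u ∈ W₁, ∀ c ∈ K j, u * c ∈ V j := by
    intro j
    obtain ⟨W₁, hW₁, h1⟩ := compact_open_separated_mul_left (hK j) (hV j) (hKV j)
    exact ⟨W₁, hW₁, fun u hu c hc => h1 (mul_mem_mul hu hc)⟩
  choose W₁ hW₁ hW₁V using key
  have hW₂ : W₀ ∩ ⋂ j, W₁ j ∈ 𝓝 (1 : G) := inter_mem hW₀ (iInter_mem.2 hW₁)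
  have key2 : ∀ (γ : Γ) (j : s), ∃ i, ∀ u ∈ W, ν (u * (j.1.1 * γ.1)) ∈ B i := fun γ j =>
    hk _ (subset_closure ⟨_, ⟨j.1.1, j.1.2, γ.1, γ.2, rfl⟩, rfl⟩)
  choose idx hidx using key2
  let A : ι → Set G := fun i => {x | ∃ (γ : Γ) (j : s), idx γ j = i ∧ ∃ c ∈ K j, x = c * γ.1}
  have hAB : ∀ i, ν '' A i ⊆ B i := by
    rintro i _ ⟨_, ⟨γ, j, rfl, c, hc, rfl⟩, rfl⟩
    have h1 : c * j.1.1⁻¹ ∈ W := interior_subset (hVW j (hKV j hc))
    have := hidx γ j _ h1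
    simpa [mul_assoc] using this
  choose f hf hf1 hf0 using fun i => h.sep (A i) _ hW₂
  refine ⟨fun i => {y | f i y ≠ 0} ∩ U i,
    fun i => (isOpen_ne_fun (hf i) continuous_const).inter (hU i), ?_,
    fun i => inter_subset_right, ?_⟩
  · have h1 : ν '' tr C Γ ⊆ ⋃ i, ν '' A i := by
      rintro _ ⟨_, ⟨c, hc, γ, hγ, rfl⟩, rfl⟩
      rw [hKc] at hc
      obtain ⟨j, -, hc⟩ := mem_iUnion₂.1 hc
      exact mem_iUnion.2 ⟨idx ⟨γ, hγ⟩ j, _, ⟨⟨γ, hγ⟩, j, rfl, c, hc, rfl⟩, rfl⟩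
    intro y hy
    have h2 := closure_mono h1 hy
    rw [closure_iUnion_of_finite] at h2
    obtain ⟨i, hi⟩ := mem_iUnion.1 h2
    refine mem_iUnion.2 ⟨i, ?_, hBU i (closure_minimal (hAB i) (hB i) hi)⟩
    have h3 : ν '' A i ⊆ {y | f i y = 1} := by
      rintro _ ⟨a, ha, rfl⟩
      exact hf1 i a ha
    have h4 : f i y = 1 := closure_minimal h3 (isClosed_eq (hf i) continuous_const) hi
    show f i y ≠ 0
    rw [h4]
    exact one_ne_zero
  · intro y hy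
    have hN : (⋂ i : {i // f i y ≠ 0}, {z | f i.1 z ≠ 0}) ∈ 𝓝 y :=
      iInter_mem.2 fun i => (isOpen_ne_fun (hf i.1) continuous_const).mem_nhds i.2
    obtain ⟨_, hz, _, ⟨c, hc, γ, hγ, rfl⟩, rfl⟩ := mem_closure_iff_nhds.1 hy _ hN
    refine le_trans (card_le (idx ⟨γ, hγ⟩) _ (fun j => c ∈ V j) ?_) (hVo c hc)
    intro i hi
    obtain ⟨u, hu, _, ⟨γ', j, rfl, c', hc', rfl⟩, he⟩ :=
      hf0 i _ (mem_iInter.1 hz ⟨i, hi.1⟩)
    have h1 : γ = γ'.1 := hA γ hγ γ'.1 γ'.2 1 (mem_of_mem_nhds hW₀) u hu.1 c hc c' (hKC j hc')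
      (by rw [one_mul, he, mul_assoc])
    obtain ⟨γ', hγ'⟩ := γ'
    subst h1
    refine ⟨j, ?_, rfl⟩
    have h2 : c = u * c' := by
      rw [← mul_assoc] at he
      exact mul_right_cancel he
    exact h2 ▸ hW₁V j u (mem_iInter.1 hu.2 j) c' hc'

theorem Amb.dim_iff [T2Space G] [LocallyCompactSpace G] {ν : G → Y} (h : Amb ν) :
    D n Y ↔ D n G := by
  obtain ⟨Γ, s, W, C, hW, hcov⟩ := exists_decomp (G := G)
  rw [D_iff_P, D_iff_P]
  constructor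
  · intro hY
    rw [← hcov]
    refine P.biUnion s _ (fun t => P_tr (hW t).1 (hW t).2.1 (hW t).2.2.2 fun γ => ?_)
      (fun t => isClosed_tr ((hW t).1.mem_nhds (hW t).2.1) (hW t).2.2.1 (hW t).2.2.2)
    exact P.pullback h.cont ((hW t).2.2.1.image (by fun_prop)) h.inj.injOn hY
  · intro hG
    have : (univ : Set Y) = ⋃ t ∈ s, closure (ν '' tr (C t) Γ) := by
      rw [← Finset.closure_biUnion, ← image_iUnion₂, hcov, image_univ, h.dense.closure_range]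
    rw [this]
    refine P.biUnion s _ (fun t => h.P_closure ((hW t).1.mem_nhds (hW t).2.1) (hW t).2.2.1
      (hW t).2.2.2 ?_) (fun t => isClosed_closure)
    exact P.pullback continuous_id (hW t).2.2.1 (injOn_id _) hG

end Pool.Agent.H767Z.Dim
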