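import Mathlib
import Pool.Agent.H767Z.DimB

set_option autoImplicit false
set_option linter.unusedSectionVars false
open Set Filter Topology
open scoped BoundedContinuousFunction

namespace Pool.Agent.H767Z.Dim

variable {G : Type} [TopologicalSpace G] [Group G] [IsTopologicalGroup G]

variable (G) in
/-- bounded right uniformly continuous functions -/
abbrev S : Set (G →ᵇ ℂ) := {f : G →ᵇ ℂ | ∀ ε : ℝ, 0 < ε → ∃ W ∈ nhds (1 : G), ∀ u ∈ W, ∀ x : G,
  ‖f (u * x) - f x‖ < ε}

/-- translation -/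
noncomputable def T (u : G) (f : G →ᵇ ℂ) : G →ᵇ ℂ :=
  f.compContinuous ⟨fun x => u * x, by fun_prop⟩

@[simp] lemma T_apply (u : G) (f : G →ᵇ ℂ) (x : G) : T u f x = f (u * x) := rfl

lemma mem_S_iff {f : G →ᵇ ℂ} : f ∈ S G ↔ Tendsto (fun u => T u f) (𝓝 1) (𝓝 f) := by
  rw [Metric.tendsto_nhds]
  constructor
  · intro h ε hε
    obtain ⟨W, hW, h⟩ := h (ε / 2) (half_pos hε)
    filter_upwards [hW] with u hu
    refine lt_of_le_of_lt ((BoundedContinuousFunction.dist_le (half_pos hε).le).2 fun x => ?_)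
      (half_lt_self hε)
    rw [dist_eq_norm]
    exact (h u hu x).le
  · intro h ε hε
    refine ⟨_, h ε hε, fun u hu x => ?_⟩
    rw [← dist_eq_norm]
    exact lt_of_le_of_lt (BoundedContinuousFunction.dist_coe_le_dist (f := T u f) x) hu

variable (G) in
/-- the subalgebra -/
noncomputable def SA : Subalgebra ℂ (G →ᵇ ℂ) where
  carrier := S G
  mul_mem' := fun {f g} hf hg => by
    have h1 : (fun u : G => T u (f * g)) = fun u => T u f * T u g := by
      funext u; ext x; rfl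
    have h2 := (mem_S_iff.1 hf).mul (mem_S_iff.1 hg)
    rw [← h1] at h2
    exact mem_S_iff.2 h2
  add_mem' := fun {f g} hf hg => by
    have h1 : (fun u : G => T u (f + g)) = fun u => T u f + T u g := by
      funext u; ext x; rfl
    have h2 := (mem_S_iff.1 hf).add (mem_S_iff.1 hg)
    rw [← h1] at h2
    exact mem_S_iff.2 h2
  algebraMap_mem' := fun c ε hε => ⟨univ, univ_mem, fun u _ x => by simpa using hε⟩

variable (G) in
/-- the algebra of the statement -/
noncomputable abbrev A : Subalgebra ℂ (G →ᵇ ℂ) := Algebra.adjoin ℂ (S G)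

lemma mem_A {f : G →ᵇ ℂ} : f ∈ A G ↔ f ∈ S G := by
  have : A G = SA G := Algebra.adjoin_eq (SA G)
  rw [this]
  rfl

lemma star_mem_A {f : G →ᵇ ℂ} (hf : f ∈ A G) : star f ∈ A G := by
  rw [mem_A] at hf ⊢
  exact mem_S_iff.2 (mem_S_iff.1 hf).star

lemma isClosed_A : IsClosed ((A G : Set (G →ᵇ ℂ))) := by
  rw [← closure_subset_iff_isClosed]
  intro f hf
  refine mem_A.2 fun ε hε => ?_
  obtain ⟨g, hg, hfg⟩ := Metric.mem_closure_iff.1 hf (ε / 3) (by positivity)
  obtain ⟨W, hW, h⟩ := mem_A.1 hg (ε / 3) (by positivity)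
  refine ⟨W, hW, fun u hu x => ?_⟩
  have h1 := h u hu x
  have h2 := BoundedContinuousFunction.dist_coe_le_dist (f := f) (g := g) x
  have h3 := BoundedContinuousFunction.dist_coe_le_dist (f := f) (g := g) (u * x)
  rw [← dist_eq_norm] at h1 ⊢
  have h4 := dist_triangle4 (f (u * x)) (g (u * x)) (g x) (f x)
  rw [dist_comm (g x)] at h4
  linarith

instance : CompleteSpace (A G) := isClosed_A.completeSpace_coe

variable (G) in
/-- the character space -/
abbrev Sp : Type := ↥(WeakDual.characterSpace ℂ ↥(A G))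

instance : CompactSpace (Sp G) := inferInstance

/-- evaluation as a continuous linear map -/
noncomputable def evL (x : G) : A G →L[ℂ] ℂ where
  toFun f := f.1 x
  map_add' _ _ := rfl
  map_smul' _ _ := rfl
  cont := (continuous_eval_const (F := G →ᵇ ℂ) x).comp continuous_subtype_val

/-- evaluation at a point -/
noncomputable def ev (x : G) : Sp G :=
  ⟨evL x, by
    constructor
    · intro h
      have h1 : evL x 1 = (0 : WeakDual ℂ (A G)) 1 := congrArg (fun φ : WeakDual ℂ (A G) => φ 1) h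
      have h2 : evL x 1 = 1 := rfl
      have h3 : (0 : WeakDual ℂ (A G)) 1 = 0 := rfl
      rw [h2, h3] at h1
      exact one_ne_zero h1
    · intro f g
      rfl⟩

lemma ev_apply (x : G) (f : A G) : ev x f = f.1 x := rfl

lemma cont_eval (f : A G) : Continuous fun φ : Sp G => φ f :=
  (WeakDual.eval_continuous f).comp continuous_subtype_val

lemma tendsto_Sp {α : Type} {l : Filter α} {g : α → Sp G} {φ : Sp G}
    (h : ∀ f : A G, Tendsto (fun a => g a f) l (𝓝 (φ f))) : Tendsto g l (𝓝 φ) :=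
  tendsto_subtype_rng.2 (tendsto_iff_forall_eval_tendsto_topDualPairing.2 h)

lemma small_of_ker (φ : Sp G) (g : A G) (hg : φ g = 0) : ∃ x, ‖g.1 x‖ < 1 := by
  by_contra hcon
  push Not at hcon
  have hne : ∀ x, g.1 x ≠ 0 := fun x h => by
    have := hcon x
    rw [h, norm_zero] at this
    linarith
  let k : G →ᵇ ℂ := BoundedContinuousFunction.ofNormedAddCommGroup (fun x => (g.1 x)⁻¹)
    (g.1.continuous.inv₀ hne) 1 (fun x => by
      rw [norm_inv]
      exact inv_le_one_of_one_le₀ (hcon x))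
  have hk : k ∈ A G := by
    refine mem_A.2 fun ε hε => ?_
    obtain ⟨W, hW, h⟩ := mem_A.1 g.2 ε hε
    refine ⟨W, hW, fun u hu x => lt_of_le_of_lt ?_ (h u hu x)⟩
    show ‖(g.1 (u * x))⁻¹ - (g.1 x)⁻¹‖ ≤ _
    rw [inv_sub_inv (hne _) (hne _), norm_div, norm_sub_rev, norm_mul]
    exact div_le_self (norm_nonneg _) (one_le_mul_of_one_le_of_one_le (hcon _) (hcon _))
  have h1 : g * ⟨k, hk⟩ = 1 := by
    apply Subtype.ext
    ext x
    exact mul_inv_cancel₀ (hne x)
  have h2 := congrArg φ h1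
  rw [map_mul, hg, zero_mul, map_one] at h2
  exact zero_ne_one h2

lemma dense_ev : DenseRange (ev (G := G)) := by
  intro φ
  let l : Filter G := ⨅ g : {g : A G // φ g = 0}, 𝓟 {x | ‖g.1.1 x‖ < 1}
  have : Nonempty {g : A G // φ g = 0} := ⟨⟨0, map_zero φ⟩⟩
  have : l.NeBot := by
    refine iInf_neBot_of_directed' ?_ fun g => principal_neBot_iff.2 (small_of_ker φ g.1 g.2)
    rintro ⟨g, hg⟩ ⟨g', hg'⟩
    refine ⟨⟨g * ⟨star g.1, star_mem_A g.2⟩ + g' * ⟨star g'.1, star_mem_A g'.2⟩, ?_⟩, ?_⟩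
    · rw [map_add, map_mul, map_mul, hg, hg']
      simp
    · have key : ∀ x, ‖g.1 x * star (g.1 x) + g'.1 x * star (g'.1 x)‖ =
          ‖g.1 x‖ ^ 2 + ‖g'.1 x‖ ^ 2 := by
        intro x
        rw [Complex.star_def, Complex.mul_conj', Complex.mul_conj']
        norm_cast
        exact abs_of_nonneg (by positivity)
      constructor
      · refine principal_mono.2 fun x hx => ?_
        have hx' : ‖g.1 x * star (g.1 x) + g'.1 x * star (g'.1 x)‖ < 1 := hx
        rw [key] at hx'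
        show ‖g.1 x‖ < 1
        nlinarith [norm_nonneg (g.1 x), norm_nonneg (g'.1 x)]
      · refine principal_mono.2 fun x hx => ?_
        have hx' : ‖g.1 x * star (g.1 x) + g'.1 x * star (g'.1 x)‖ < 1 := hx
        rw [key] at hx'
        show ‖g'.1 x‖ < 1
        nlinarith [norm_nonneg (g.1 x), norm_nonneg (g'.1 x)]
  refine mem_closure_of_tendsto (f := ev) (b := l) (tendsto_Sp fun f => ?_)
    (Eventually.of_forall fun x => mem_range_self x)
  rw [Metric.tendsto_nhds]
  intro ε hε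
  have h0 : φ (((ε⁻¹ : ℝ) : ℂ) • (f - algebraMap ℂ (A G) (φ f))) = 0 := by
    rw [map_smul, map_sub, AlgHomClass.commutes]
    simp
  have h1 : {x | ‖(((ε⁻¹ : ℝ) : ℂ) • (f - algebraMap ℂ (A G) (φ f))).1 x‖ < 1} ∈ l :=
    mem_iInf_of_mem ⟨_, h0⟩ (mem_principal_self _)
  filter_upwards [h1] with x hx
  have hx' : ‖((ε⁻¹ : ℝ) : ℂ) * (f.1 x - φ f)‖ < 1 := by
    convert hx using 2
    simp
  rw [norm_mul, Complex.norm_real, Real.norm_of_nonneg (inv_pos.2 hε).le,
    inv_mul_lt_iff₀ hε, mul_one] at hx'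
  rw [dist_eq_norm]
  exact hx'

lemma exists_sep [T2Space G] [LocallyCompactSpace G] (B : Set G) (W : Set G)
    (hW : W ∈ 𝓝 (1 : G)) : ∃ f : A G, (∀ a ∈ B, f.1 a = 1) ∧
      ∀ x, f.1 x ≠ 0 → ∃ u ∈ W, ∃ a ∈ B, x = u * a := by
  rcases B.eq_empty_or_nonempty with rfl | hB
  · exact ⟨0, fun a ha => absurd ha (notMem_empty a), fun x hx => absurd rfl hx⟩
  have : Nonempty B := hB.to_subtype
  obtain ⟨g, hg1, hg0, hgc, hgI⟩ := exists_continuous_one_zero_of_isCompact
    (isCompact_singleton (x := (1 : G))) (isOpen_interior (s := W)).isClosed_compl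
    (disjoint_singleton_left.2 fun h => h (mem_interior_iff_mem_nhds.2 hW))
  have hu : ∀ ε : ℝ, 0 < ε → ∃ V ∈ 𝓝 (1 : G), ∀ u ∈ V, ∀ x, |g (u * x) - g x| < ε := by
    let _ := IsTopologicalGroup.rightUniformSpace G
    have h1 : UniformContinuous g := hgc.uniformContinuous_of_continuous g.continuous
    intro ε hε
    have h2 := h1 (Metric.dist_mem_uniformity hε)
    rw [uniformity_eq_comap_nhds_one', mem_map, mem_comap] at h2
    obtain ⟨V, hV, h2⟩ := h2
    refine ⟨V, hV, fun u hu x => ?_⟩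
    have h3 : (x, u * x) ∈ (fun p : G × G => p.2 * p.1⁻¹) ⁻¹' V := by simpa using hu
    have h4 : dist (g x) (g (u * x)) < ε := h2 h3
    rwa [dist_comm, Real.dist_eq] at h4
  let F : G → ℝ := fun x => ⨆ a : B, g (x * a.1⁻¹)
  have hbdd : ∀ x, BddAbove (range fun a : B => g (x * a.1⁻¹)) := fun x =>
    ⟨1, by rintro _ ⟨a, rfl⟩; exact (hgI _).2⟩
  have hF1 : ∀ x, F x ≤ 1 := fun x => ciSup_le fun a => (hgI _).2
  have hF0 : ∀ x, 0 ≤ F x := fun x => Real.iSup_nonneg fun a => (hgI _).1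
  have hFu : ∀ ε : ℝ, 0 < ε → ∃ V ∈ 𝓝 (1 : G), ∀ u ∈ V, ∀ x, |F (u * x) - F x| < ε := by
    intro ε hε
    obtain ⟨V, hV, h⟩ := hu (ε / 2) (half_pos hε)
    refine ⟨V, hV, fun u hu x => ?_⟩
    have h1 : F (u * x) ≤ F x + ε / 2 := ciSup_le fun a => by
      have h2 := (abs_lt.1 (h u hu (x * a.1⁻¹))).2
      have h3 : g (x * a.1⁻¹) ≤ F x := le_ciSup (hbdd x) a
      rw [mul_assoc]
      linarith
    have h2 : F x ≤ F (u * x) + ε / 2 := ciSup_le fun a => by
      have h2 := (abs_lt.1 (h u hu (x * a.1⁻¹))).1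
      have h3 : g (u * x * a.1⁻¹) ≤ F (u * x) := le_ciSup (hbdd (u * x)) a
      rw [mul_assoc] at h3
      linarith
    rw [abs_lt]
    constructor <;> linarith
  have hFc : Continuous F := by
    rw [continuous_iff_continuousAt]
    intro x
    rw [ContinuousAt, Metric.tendsto_nhds]
    intro ε hε
    obtain ⟨V, hV, h⟩ := hFu ε hε
    have h1 : (fun z => z * x⁻¹) ⁻¹' V ∈ 𝓝 x :=
      (by fun_prop : Continuous fun z : G => z * x⁻¹).continuousAt.preimage_mem_nhds
        (by simpa using hV)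
    filter_upwards [h1] with z hz
    simpa [Real.dist_eq] using h _ hz x
  let k : G →ᵇ ℂ := BoundedContinuousFunction.ofNormedAddCommGroup (fun x => (F x : ℂ))
    (Complex.continuous_ofReal.comp hFc) 1 (fun x => by
      rw [Complex.norm_real, Real.norm_of_nonneg (hF0 x)]
      exact hF1 x)
  have hk : k ∈ A G := by
    refine mem_A.2 fun ε hε => ?_
    obtain ⟨V, hV, h⟩ := hFu ε hε
    refine ⟨V, hV, fun u hu x => ?_⟩
    show ‖(F (u * x) : ℂ) - F x‖ < ε
    rw [← Complex.ofReal_sub, Complex.norm_real]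
    exact h u hu x
  refine ⟨⟨k, hk⟩, fun a ha => ?_, fun x hx => ?_⟩
  · show (F a : ℂ) = 1
    have h1 : g (a * (⟨a, ha⟩ : B).1⁻¹) ≤ F a := le_ciSup (hbdd a) ⟨a, ha⟩
    have h2 : g 1 = 1 := hg1 rfl
    simp only [mul_inv_cancel, h2] at h1
    rw [le_antisymm (hF1 a) h1]
    simp
  · by_contra hcon
    push Not at hcon
    apply hx
    show (F x : ℂ) = 0
    have : F x ≤ 0 := ciSup_le fun a => by
      refine (hg0 fun h => ?_).le
      exact hcon _ (interior_subset h) a.1 a.2 (by group)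
    rw [le_antisymm this (hF0 x)]
    simp

lemma amb_ev [T2Space G] [LocallyCompactSpace G] : Amb (ev (G := G)) where
  cont := continuous_iff_continuousAt.2 fun x => tendsto_Sp fun f => f.1.continuous.continuousAt
  dense := dense_ev
  unif := fun φ => tendsto_Sp fun f => by
    have h1 : Tendsto (fun p : G × G => f.1 p.2) (𝓝 1 ×ˢ comap ev (𝓝 φ)) (𝓝 (φ f)) :=
      (((cont_eval f).tendsto φ).comp tendsto_comap).comp tendsto_snd
    have h2 : Tendsto (fun p : G × G => f.1 (p.1 * p.2) - f.1 p.2) (𝓝 1 ×ˢ comap ev (𝓝 φ))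
        (𝓝 0) := by
      rw [Metric.tendsto_nhds]
      intro ε hε
      obtain ⟨W, hW, h⟩ := mem_A.1 f.2 ε hε
      filter_upwards [tendsto_fst hW] with p hp
      rw [dist_zero_right]
      exact h p.1 hp p.2
    simpa [ev_apply] using h2.add h1
  sep := fun B W hW => by
    obtain ⟨f, h1, h0⟩ := exists_sep B W hW
    exact ⟨fun φ => φ f, cont_eval f, h1, h0⟩

theorem main [T2Space G] [LocallyCompactSpace G] (n : ℕ) : D n (Sp G) ↔ D n G :=
  amb_ev.dim_iff

end Pool.Agent.H767Z.Dim
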